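import Pool.Agent.Q296.MLS.Main

/-!
# The modified log-Sobolev constant is not controlled by the entropy hitting-time parameter

For every `Cent > 0` and every `C` there is a finite irreducible reversible Markov chain with
`1 / c_MLS > C ρ_ent` (where `ρ_ent` is taken with the constant `Cent`) and `1 / c_MLS > C τ_ent`.
All definitions are in `Pool.Agent.Q296.MLS.Defs`.
-/

namespace Pool.Agent.Results.MP_bada7b_pr.MLSNotControlled

open Q296.MLS
open scoped ENNReal NNReal

theorem result (Cent : ℝ) (hCent : 0 < Cent) (C : ℝ≥0) :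
    ∃ (n : ℕ) (P : Matrix (Fin n) (Fin n) ℝ) (π : Fin n → ℝ),
      IsRevChain P π ∧ 0 < cMLS P π ∧
      C * rhoEnt Cent P π < (ENNReal.ofReal (cMLS P π))⁻¹ ∧
      C * tauEnt P π < (ENNReal.ofReal (cMLS P π))⁻¹ := by
  obtain ⟨k, h⟩ := main Cent hCent C
  exact ⟨k + 1, PP k, pp k, isRevChain k, h⟩

end Pool.Agent.Results.MP_bada7b_pr.MLSNotControlled
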